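import Pool.Agent.W739.CY.Stm

set_option autoImplicit false

namespace Pool.Agent.W381.CY

open Pool.Agent.W739.CY MeasureTheory

open Classical in
/-- the mass of a property -/
noncomputable def R {X : Type} [Fintype X] (Cf : X → ℝ) (p : X → Prop) : ℝ :=
  ∑ x : X, if p x then Cf x else 0

open Classical in
lemma R_congr {X : Type} [Fintype X] (Cf : X → ℝ) {p q : X → Prop} (h : ∀ x, p x ↔ q x) :
    R Cf p = R Cf q := by
  have : p = q := funext fun x => propext (h x)
  rw [this]

open Classical in
lemma R_nonneg {X : Type} [Fintype X] {Cf : X → ℝ} (h : ∀ x, 0 ≤ Cf x) (p : X → Prop) :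
    0 ≤ R Cf p := by
  refine Finset.sum_nonneg fun x _ => ?_
  split_ifs
  · exact h x
  · exact le_rfl

open Classical in
lemma R_fib {X Y : Type} [Fintype X] [Fintype Y] (Cf : X → ℝ) (f : X → Y) (s : Set Y)
    (p : X → Prop) :
    R Cf (fun x => f x ∈ s ∧ p x) = ∑ y : Y, if y ∈ s then R Cf (fun x => f x = y ∧ p x) else 0 := by
  have h1 : ∀ y : Y, (if y ∈ s then R Cf (fun x => f x = y ∧ p x) else 0) =
      ∑ x : X, if y = f x then (if f x ∈ s ∧ p x then Cf x else 0) else 0 := by
    intro y
    unfold R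
    dsimp only
    by_cases hy : y ∈ s
    · rw [if_pos hy]
      refine Finset.sum_congr rfl fun x _ => ?_
      by_cases hx : f x = y
      · subst hx
        by_cases hp : p x
        · rw [if_pos ⟨rfl, hp⟩, if_pos rfl, if_pos ⟨hy, hp⟩]
        · rw [if_neg (fun h => hp h.2), if_pos rfl, if_neg (fun h => hp h.2)]
      · rw [if_neg (fun h => hx h.1), if_neg (fun h => hx h.symm)]
    · rw [if_neg hy]
      symm
      refine Finset.sum_eq_zero fun x _ => ?_
      by_cases hx : y = f x
      · subst hx
        rw [if_pos rfl, if_neg (fun h => hy h.1)]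
      · rw [if_neg hx]
  refine Eq.trans ?_ (Finset.sum_congr rfl fun y _ => (h1 y).symm)
  rw [Finset.sum_comm]
  unfold R
  dsimp only
  refine Finset.sum_congr rfl fun x _ => ?_
  rw [Finset.sum_ite_eq' Finset.univ (f x) fun _ => (if f x ∈ s ∧ p x then Cf x else 0),
    if_pos (Finset.mem_univ _)]
  by_cases h : f x ∈ s ∧ p x
  · rw [if_pos h, if_pos h]
  · rw [if_neg h, if_neg h]

open Classical in
lemma R_prod {X Y Z : Type} [Fintype X] [Fintype Y] [Fintype Z] (Cf : X → ℝ) (f : X → Y)
    (g : X → Z) (h : ∀ y z, R Cf (fun x => f x = y ∧ g x = z) =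
      R Cf (fun x => f x = y) * R Cf (fun x => g x = z)) (s : Set Y) (t : Set Z) :
    R Cf (fun x => f x ∈ s ∧ g x ∈ t) = R Cf (fun x => f x ∈ s) * R Cf (fun x => g x ∈ t) := by
  have h1 : ∀ (s : Set Y), R Cf (fun x => f x ∈ s) =
      ∑ y : Y, if y ∈ s then R Cf (fun x => f x = y) else 0 := by
    intro s
    have := R_fib Cf f s (fun _ => True)
    rw [R_congr Cf (q := fun x => f x ∈ s) (fun x => and_iff_left trivial)] at this
    rw [this]
    refine Finset.sum_congr rfl fun y _ => ?_
    rw [R_congr Cf (q := fun x => f x = y) (fun x => and_iff_left trivial)]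
  have h2 : R Cf (fun x => g x ∈ t) =
      ∑ z : Z, if z ∈ t then R Cf (fun x => g x = z) else 0 := by
    have := R_fib Cf g t (fun _ => True)
    rw [R_congr Cf (q := fun x => g x ∈ t) (fun x => and_iff_left trivial)] at this
    rw [this]
    refine Finset.sum_congr rfl fun y _ => ?_
    rw [R_congr Cf (q := fun x => g x = y) (fun x => and_iff_left trivial)]
  have h3 : ∀ y : Y, R Cf (fun x => f x = y ∧ g x ∈ t) =
      ∑ z : Z, if z ∈ t then R Cf (fun x => f x = y) * R Cf (fun x => g x = z) else 0 := by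
    intro y
    rw [R_congr Cf (fun x => and_comm), R_fib Cf g t (fun x => f x = y)]
    refine Finset.sum_congr rfl fun z _ => ?_
    rw [R_congr Cf (q := fun x => f x = y ∧ g x = z) (fun x => and_comm), h y z]
  rw [R_fib Cf f s (fun x => g x ∈ t), h1 s, h2, Finset.sum_mul_sum]
  refine Finset.sum_congr rfl fun y _ => ?_
  by_cases hy : y ∈ s
  · rw [if_pos hy, if_pos hy, h3 y]
    refine Finset.sum_congr rfl fun z _ => ?_
    by_cases hz : z ∈ t
    · rw [if_pos hz, if_pos hz]
    · rw [if_neg hz, if_neg hz, mul_zero]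
  · rw [if_neg hy, if_neg hy]
    symm
    refine Finset.sum_eq_zero fun z _ => ?_
    rw [zero_mul]

/-- the measure with the given masses -/
noncomputable def mu {n q : ℕ} (Cf : (Fin n → Fin q) → ℝ) : Measure (Fin n → Fin q) :=
  ∑ x : Fin n → Fin q, ENNReal.ofReal (Cf x) • Measure.dirac x

lemma mu_apply {n q : ℕ} (Cf : (Fin n → Fin q) → ℝ) (h0 : ∀ x, 0 ≤ Cf x)
    (S : Set (Fin n → Fin q)) : mu Cf S = ENNReal.ofReal (R Cf (fun x => x ∈ S)) := by
  classical
  have hS : MeasurableSet S := (Set.toFinite S).measurableSet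
  unfold mu R
  rw [Measure.coe_finsetSum, Finset.sum_apply, ENNReal.ofReal_sum_of_nonneg]
  · refine Finset.sum_congr rfl fun x _ => ?_
    rw [Measure.smul_apply, Measure.dirac_apply' _ hS, smul_eq_mul]
    by_cases hx : x ∈ S
    · rw [Set.indicator_of_mem hx, if_pos hx, Pi.one_apply, mul_one]
    · rw [Set.indicator_of_notMem hx, if_neg hx, mul_zero, ENNReal.ofReal_zero]
  · intro x _
    split_ifs
    · exact h0 x
    · exact le_rfl

open Classical in
/-- the partial coloring -/
noncomputable def pc {n q : ℕ} (A : Set (Fin n)) (a : A → Fin q) (i : Fin n) : Option (Fin q) :=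
  if h : i ∈ A then some (a ⟨i, h⟩) else none

lemma pc_ne {n q : ℕ} {A : Set (Fin n)} {a : A → Fin q} {i : Fin n} (h : pc A a i ≠ none) :
    i ∈ A := by
  by_contra hc
  unfold pc at h
  rw [dif_neg hc] at h
  exact h rfl

lemma pc_iff {n q : ℕ} (A : Set (Fin n)) (a : A → Fin q) (x : Fin n → Fin q) :
    (∀ i, pc A a i = none ∨ pc A a i = some (x i)) ↔ (fun i : A => x i) = a := by
  constructor
  · intro h
    funext i
    have h1 := h i
    unfold pc at h1
    rw [dif_pos i.2] at h1
    rcases h1 with h1 | h1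
    · exact absurd h1 (by simp)
    · exact (Option.some.inj h1).symm
  · rintro rfl i
    unfold pc
    by_cases hi : i ∈ A
    · rw [dif_pos hi]
      exact Or.inr rfl
    · rw [dif_neg hi]
      exact Or.inl rfl

lemma pc_or {n q : ℕ} (A B : Set (Fin n)) (hAB : ∀ i, i ∈ A → i ∈ B → False) (a : A → Fin q)
    (b : B → Fin q) (x : Fin n → Fin q) :
    (∀ i, (pc A a i).or (pc B b i) = none ∨ (pc A a i).or (pc B b i) = some (x i)) ↔
      ((fun i : A => x i) = a ∧ (fun i : B => x i) = b) := by
  rw [← pc_iff, ← pc_iff]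
  constructor
  · intro h
    refine ⟨fun i => ?_, fun i => ?_⟩
    · have h1 := h i
      cases hA : pc A a i with
      | none => exact Or.inl rfl
      | some c =>
        rw [hA, Option.some_or] at h1
        rcases h1 with h1 | h1
        · exact absurd h1 (by simp)
        · exact Or.inr h1
    · have h1 := h i
      cases hB : pc B b i with
      | none => exact Or.inl rfl
      | some c =>
        have h2 : pc A a i = none := by
          by_contra hc
          exact hAB i (pc_ne hc) (pc_ne (by rw [hB]; simp))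
        rw [h2, hB, Option.none_or] at h1
        rcases h1 with h1 | h1
        · exact absurd h1 (by simp)
        · exact Or.inr h1
  · rintro ⟨h1, h2⟩ i
    rcases h1 i with h3 | h3
    · rw [h3, Option.none_or]
      exact h2 i
    · rw [h3, Option.some_or]
      exact Or.inr rfl

lemma mass_eq {n q : ℕ} (Cf : (Fin n → Fin q) → ℝ) (s : Fin n → Option (Fin q)) :
    Mass Cf s = R Cf (fun x => ∀ i, s i = none ∨ s i = some (x i)) := by
  unfold Mass R
  refine Finset.sum_congr rfl fun x _ => ?_
  by_cases h : ∀ i, s i = none ∨ s i = some (x i)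
  · rw [if_pos h, if_pos h]
  · rw [if_neg h, if_neg h]

theorem t_AB : S_AB := by
  intro q k k' n Cf hk h0 h1 hprop hsym hind
  refine ⟨mu Cf, ⟨?_⟩, ?_, ?_, ?_⟩
  · rw [mu_apply Cf h0]
    have h2 : R Cf (fun x => x ∈ (Set.univ : Set (Fin n → Fin q))) = 1 := by
      unfold R
      rw [← h1]
      refine Finset.sum_congr rfl fun x _ => ?_
      rw [if_pos (Set.mem_univ x)]
    rw [h2, ENNReal.ofReal_one]
  · rw [ae_iff, mu_apply Cf h0]
    have h2 : R Cf (fun x => x ∈ {x : Fin n → Fin q | ¬ ∀ i j : Fin n,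
        (SimpleGraph.cycleGraph n).Adj i j → x i ≠ x j}) = 0 := by
      unfold R
      refine Finset.sum_eq_zero fun x _ => ?_
      by_cases hx : ∀ i j : Fin n, (SimpleGraph.cycleGraph n).Adj i j → x i ≠ x j
      · rw [if_neg (fun h => h hx)]
      · have hx' : (fun x => x ∈ {x : Fin n → Fin q | ¬ ∀ i j : Fin n,
            (SimpleGraph.cycleGraph n).Adj i j → x i ≠ x j}) x := hx
        rw [if_pos hx']
        push Not at hx
        exact hprop x hx
    rw [h2, ENNReal.ofReal_zero]
  · intro σ
    ext S hS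
    have hm : Measurable (fun x : Fin n → Fin q => (σ ∘ x : Fin n → Fin q)) :=
      measurable_of_finite _
    rw [Measure.map_apply hm hS, mu_apply Cf h0, mu_apply Cf h0]
    congr 1
    unfold R
    refine Fintype.sum_equiv (Equiv.piCongrRight fun _ => σ) _ _ fun x => ?_
    have e : (Equiv.piCongrRight (fun _ : Fin n => σ)) x = (σ ∘ x : Fin n → Fin q) := rfl
    rw [e, hsym σ x]
    rfl
  · intro A B hAB
    rw [ProbabilityTheory.indepFun_iff_measure_inter_preimage_eq_mul]
    intro s t _ _
    have hdisj : ∀ i, i ∈ A → i ∈ B → False := by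
      intro i hA hB
      have := hAB i hA i hB
      rw [SimpleGraph.dist_self] at this
      omega
    have key : ∀ (a : A → Fin q) (b : B → Fin q),
        R Cf (fun x => (fun i : A => x i) = a ∧ (fun i : B => x i) = b) =
          R Cf (fun x => (fun i : A => x i) = a) * R Cf (fun x => (fun i : B => x i) = b) := by
      intro a b
      have h2 := hind (pc A a) (pc B b) (fun i j hi hj =>
        lt_of_le_of_lt hk (hAB i (pc_ne hi) j (pc_ne hj)))
      rw [mass_eq, mass_eq, mass_eq, R_congr Cf (pc_or A B hdisj a b), R_congr Cf (pc_iff A a),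
        R_congr Cf (pc_iff B b)] at h2
      exact h2
    classical
    have h3 := R_prod Cf (fun x => (fun i : A => x i)) (fun x => (fun i : B => x i)) key s t
    rw [mu_apply Cf h0, mu_apply Cf h0, mu_apply Cf h0,
      ← ENNReal.ofReal_mul (R_nonneg h0 _)]
    congr 1

end Pool.Agent.W381.CY
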